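import Pool.Agent.Helper96.SE.Goals

/-!
# Project SE, packet PLI: infinite places in an extension
-/

open NumberField Height
open Pool.Agent.Results.MP_e44225_nt.SUnitDisproof (logPlus Place nabs Above)

namespace Pool.Agent.Helper82.SE

universe u

open scoped NumberField.LiesOver in
theorem mult_eq {k K : Type u} [Field k] [Field K] [Algebra k K]
    (v : InfinitePlace k) (w : InfinitePlace K) [w.LiesOver v] :
    v.mult * v.inertiaDeg w = w.mult := by
  rw [InfinitePlace.inertiaDeg_eq_finrank, InfinitePlace.mult_mul_finrank]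

theorem above_eq {k K : Type u} [Field k] [NumberField k] [Field K] [NumberField K] [Algebra k K]
    (v : InfinitePlace k) :
    {w : Place K | Above (Sum.inl v : Place k) w} = Sum.inl '' (v.placesOver K) := by
  ext w
  constructor
  · rintro (⟨v', w', h1, h2, h3⟩ | ⟨v', w', h1, h2, h3⟩)
    · cases h1
      subst h2
      refine ⟨w', ?_, rfl⟩
      refine ⟨?_⟩
      rw [← h3]
      rfl
    · cases h1
  · rintro ⟨w', h1, rfl⟩
    have : w'.LiesOver v := h1
    exact Or.inl ⟨v, w', rfl, rfl, InfinitePlace.LiesOver.comap_eq w' v⟩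

theorem pli : Pool.Agent.Helper96.SE.PLI.{u} := by
  intro k K _ _ _ _ _ v
  classical
  rw [above_eq]
  refine ⟨(Set.toFinite _).image _, fun x => ?_⟩
  rw [finsum_mem_image Sum.inl_injective.injOn, finsum_mem_eq_toFinset_sum,
    ← InfinitePlace.sum_inertiaDeg_eq_finrank (K := k) (L := K) v]
  push_cast
  rw [Finset.sum_mul]
  refine Finset.sum_congr (by congr) fun w hw => ?_
  have hw' : w.LiesOver v := by simpa [InfinitePlace.placesOver] using hw
  have h1 : w (algebraMap k K x) = v x := by
    have h2 := InfinitePlace.LiesOver.comap_eq w v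
    calc w (algebraMap k K x) = (w.comap (algebraMap k K)) x := rfl
      _ = v x := by rw [h2]
  have h3 : nabs (Sum.inl w : Place K) (algebraMap k K x) =
      nabs (Sum.inl v : Place k) x ^ (v.inertiaDeg w) := by
    show w (algebraMap k K x) ^ w.mult = (v x ^ v.mult) ^ (v.inertiaDeg w)
    rw [h1, ← pow_mul, mult_eq]
  have h4 : 0 ≤ nabs (Sum.inl v : Place k) x :=
    Pool.Agent.Results.MP_e44225_nt.SUnitDisproof.nabs_nonneg _ _
  rw [h3, Pool.Agent.Results.MP_e44225_nt.SUnitDisproof.logPlus_eq_posLog (pow_nonneg h4 _),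
    Pool.Agent.Results.MP_e44225_nt.SUnitDisproof.logPlus_eq_posLog h4, Real.posLog_pow]

end Pool.Agent.Helper82.SE
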